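import Pool.Agent.FCW.All

/-!
# Eichler's criterion for the first case of Fermat's equation over all quadratic fields

Let `p` be a prime and `m ≥ 1` with `2m(m+1) + 2 < p`, and suppose that the class group of
`ℚ(ζ_p)` has less than `p^m` elements `c` with `c^p = 1`, that is, `p`-rank less than `m` (for
`m = 1`: `p ≥ 7` is regular).  If `K = ℚ(√d)` is a quadratic field in which `X^p + Y^p = Z^p`
has a solution in integers prime to `p`, then `X² + XY + Y² ≡ 0 mod p` and `(d/p) = (-3/p)`.
-/

open NumberField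

namespace Pool.Agent.Results.MP_50a406_nt.EichlerCriterion

/-- Let `K` be a quadratic field containing a square root of the squarefree integer `d ≠ 1`, `p`
a prime and `m ≥ 1` with `2m(m+1) + 2 < p` such that less than `p^m` elements `c` of the class
group of the `p`-th cyclotomic field satisfy `c^p = 1`.  Let `x^(kp) + y^(kp) = z^(kp)` with
`x, y, z` in the ring of integers of `K`, all prime to `p`.  Then `(d/p) = (-3/p)` and, with
`X = x^k` and `Y = y^k`, `X² + XY + Y² ≡ 0 mod p`. -/
theorem result (K : Type) [Field K] [NumberField K] (hK : Module.finrank ℚ K = 2)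
    (d : ℤ) (hd : Squarefree d) (hd1 : d ≠ 1) (s : K) (hs : s ^ 2 = (d : K))
    (p : ℕ) [Fact p.Prime] (m : ℕ) (hm : 1 ≤ m) (hpm : 2 * m * (m + 1) + 2 < p)
    (hcl : Nat.card {c : ClassGroup (𝓞 (CyclotomicField p ℚ)) // c ^ p = 1} < p ^ m)
    (k : ℕ) (x y z : 𝓞 K) (hco : IsCoprime (x * y * z) (p : 𝓞 K))
    (h : x ^ (k * p) + y ^ (k * p) = z ^ (k * p)) :
    legendreSym p d = legendreSym p (-3) ∧
      (p : 𝓞 K) ∣ (x ^ k) ^ 2 + x ^ k * y ^ k + (y ^ k) ^ 2 :=
  Pool.Agent.FCW.final_R K hK d hd hd1 s hs p m hm hpm hcl k x y z hco h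

end Pool.Agent.Results.MP_50a406_nt.EichlerCriterion
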