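import Pool.Agent.Lib.QuadFermatExp
import Pool.Agent.Lib.QuadFermatT1

set_option autoImplicit false

namespace Pool.Agent.Results.MP_50a406_nt.ExpLowerBound

open NumberField Pool.Agent.Lib.QuadFermat

/-- Let `K` be any quadratic number field and `p ≥ 5` a prime. If `x, y, z` are nonzero integers
of `K` with `x ^ p + y ^ p = z ^ p`, and the solution is nontrivial (`x / z` and `y / z` are not both
roots of unity), then the largest of the absolute norms of `x, y, z` is at least `2 ^ (p - 2)` times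
the norm of the ideal `(x, y, z)`. -/
theorem result (K : Type) [Field K] [NumberField K] (hK : Module.finrank ℚ K = 2) (p : ℕ)
    (hp : p.Prime) (hp5 : 5 ≤ p) (x y z : 𝓞 K) (h : x ^ p + y ^ p = z ^ p) (hxyz : x * y * z ≠ 0)
    (hnt : ¬ ∃ m : ℕ, 0 < m ∧ ((x : K) / (z : K)) ^ m = 1 ∧ ((y : K) / (z : K)) ^ m = 1) :
    2 ^ (p - 2) * Ideal.absNorm (Ideal.span {x, y, z}) ≤
      max (Algebra.norm ℤ x).natAbs (max (Algebra.norm ℤ y).natAbs (Algebra.norm ℤ z).natAbs) := by
  have hodd : Odd p := hp.odd_of_ne_two (by omega)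
  have hz : z ≠ 0 := right_ne_zero_of_mul hxyz
  have hxy : x * y ≠ 0 := left_ne_zero_of_mul hxyz
  have hx : x ≠ 0 := left_ne_zero_of_mul hxy
  have hy : y ≠ 0 := right_ne_zero_of_mul hxy
  have coe : ∀ {a : 𝓞 K}, a ≠ 0 → (a : K) ≠ 0 := fun ha h0 => ha (RingOfIntegers.ext h0)
  have hK' : (x : K) ^ p + (y : K) ^ p = (z : K) ^ p := by
    have := congrArg (fun a : 𝓞 K => (a : K)) h; simpa using this
  have hxyz' : (x : K) * (y : K) * (z : K) ≠ 0 :=
    mul_ne_zero (mul_ne_zero (coe hx) (coe hy)) (coe hz)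
  -- divisibility gives an integral ratio
  have integ : ∀ a b : 𝓞 K, a ≠ 0 → a ∣ b → IsIntegral ℤ ((b : K) / (a : K)) := by
    rintro a b ha ⟨c, rfl⟩
    have : (((a * c : 𝓞 K) : K)) / (a : K) = (c : K) := by
      have ha' := coe ha
      push_cast
      field_simp
    rw [this]; exact c.isIntegral_coe
  have T1 := no_integral_ratio K hK p hp5 (x : K) (y : K) (z : K) hK' hxyz'
  have key := exp_bound K hK hp hp5 (e1 := x) (e2 := y) (e3 := -z)
    (by rw [hodd.neg_pow, h]; ring) hx hy (neg_ne_zero.mpr hz)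
    (fun hd => hnt (T1 (Or.inr (Or.inl (integ x y hx hd)))))
    (fun hd => hnt (T1 (Or.inr (Or.inr (Or.inr (Or.inr (Or.inr (integ y z hy ((dvd_neg).mp hd)))))))))
    (fun hd => hnt (T1 (Or.inr (Or.inr (Or.inl (integ z x hz ((neg_dvd).mp hd)))))))
  have hI : Ideal.span {x, y, -z} = Ideal.span {x, y, z} := by
    apply le_antisymm
    · rw [Ideal.span_le]
      intro a ha
      simp only [Set.mem_insert_iff, Set.mem_singleton_iff] at ha
      rcases ha with rfl | rfl | rfl
      · exact Ideal.subset_span (by simp)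
      · exact Ideal.subset_span (by simp)
      · exact Ideal.neg_mem_iff _ |>.mpr (Ideal.subset_span (by simp))
    · rw [Ideal.span_le]
      intro a ha
      simp only [Set.mem_insert_iff, Set.mem_singleton_iff] at ha
      rcases ha with rfl | rfl | rfl
      · exact Ideal.subset_span (by simp)
      · exact Ideal.subset_span (by simp)
      · exact Ideal.neg_mem_iff _ |>.mp (Ideal.subset_span (by simp))
  rw [hI] at key
  obtain ⟨a, ha, hle⟩ := key
  have h2p : 2 ^ p = 4 * 2 ^ (p - 2) := by
    obtain ⟨k, rfl⟩ : ∃ k, p = k + 2 := ⟨p - 2, by omega⟩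
    simp [pow_add]; ring
  rw [h2p, mul_assoc] at hle
  have hle' : 2 ^ (p - 2) * Ideal.absNorm (Ideal.span {x, y, z}) ≤
      Ideal.absNorm (Ideal.span {a}) := Nat.le_of_mul_le_mul_left hle (by norm_num)
  rw [Ideal.absNorm_span_singleton a] at hle'
  refine hle'.trans ?_
  simp only [Set.mem_insert_iff, Set.mem_singleton_iff] at ha
  rcases ha with rfl | rfl | rfl
  · exact le_max_left _ _
  · exact (le_max_left _ _).trans (le_max_right _ _)
  · have : (Algebra.norm ℤ (-z)).natAbs = (Algebra.norm ℤ z).natAbs := by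
      have h1 : Ideal.span {-z} = Ideal.span {z} := Ideal.span_singleton_neg z
      rw [← Ideal.absNorm_span_singleton, ← Ideal.absNorm_span_singleton, h1]
    rw [this]
    exact (le_max_right _ _).trans (le_max_right _ _)

end Pool.Agent.Results.MP_50a406_nt.ExpLowerBound
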