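import Pool.Agent.Lib.QuadFermatPrimCore
import Pool.Agent.Lib.QuadFermatT1

set_option autoImplicit false

namespace Pool.Agent.Results.MP_50a406_nt.PrimitiveDivisors

open NumberField Pool.Agent.Lib.QuadFermat

/-- Symmetric form: `v 0 ^ p + v 1 ^ p + v 2 ^ p = 0`, no member divides another. -/
theorem symm_form {K : Type} [Field K] [NumberField K] (hK : Module.finrank ℚ K = 2) {p : ℕ}
    (hp : p.Prime) (hp11 : 11 ≤ p) (v : Fin 3 → 𝓞 K) (hv : v 0 ^ p + v 1 ^ p + v 2 ^ p = 0)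
    (hne : ∀ i, v i ≠ 0) (hd : ∀ i k, i ≠ k → ¬ v i ∣ v k) (I : Ideal (𝓞 K))
    (hI : I = Ideal.span {v 0, v 1, v 2}) (i : Fin 3) :
    ∃ b : Ideal (𝓞 K), b * I ∣ Ideal.span {v i} ∧
      (∀ q : Ideal (𝓞 K), Prime q → q ∣ b → Ideal.absNorm q ≡ 1 [MOD p]) ∧
      ((Nonempty (K →+* ℝ) ∨ ∃ k, k ≠ i ∧
        Ideal.absNorm (Ideal.span {v k}) ≤ Ideal.absNorm (Ideal.span {v i})) →
        2 ^ (p - 4) ≤ Ideal.absNorm b ∧
        ∀ k, Ideal.absNorm (Ideal.span {v k}) ^ (p - 1) ≤
          16 * p ^ 2 * Ideal.absNorm b ^ p * Ideal.absNorm I ^ (p - 1)) ∧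
      (b = ⊤ → ¬ Nonempty (K →+* ℝ) → ∀ k l, k ≠ i → l ≠ i → k ≠ l → ∃ σ : K ≃ₐ[ℚ] K,
        σ ((v k : K) / (v i : K)) = (v l : K) / (v i : K)) := by
  have h : v (i + 1) ^ p + v (i + 2) ^ p + v i ^ p = 0 := by
    fin_cases i
    · show v 1 ^ p + v 2 ^ p + v 0 ^ p = 0
      linear_combination hv
    · show v 2 ^ p + v 0 ^ p + v 1 ^ p = 0
      linear_combination hv
    · show v 0 ^ p + v 1 ^ p + v 2 ^ p = 0
      exact hv
  have hI' : I = Ideal.span {v (i + 1), v (i + 2), v i} := by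
    fin_cases i
    · show I = Ideal.span {v 1, v 2, v 0}
      rw [hI, span_perm]
    · show I = Ideal.span {v 2, v 0, v 1}
      rw [hI, span_perm, span_perm]
    · exact hI
  have n1 : i + 1 ≠ i + 2 := by fin_cases i <;> decide
  have n2 : i + 2 ≠ i := by fin_cases i <;> decide
  have n3 : i ≠ i + 1 := by fin_cases i <;> decide
  have hcases : ∀ k : Fin 3, k = i + 1 ∨ k = i + 2 ∨ k = i := by
    intro k; fin_cases i <;> fin_cases k <;> decide
  obtain ⟨b, hb1, hb2, hb3, hb4⟩ := prim_core hK hp hp11 h (hne _) (hne _) (hne _)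
    (hd _ _ n1) (hd _ _ n2) (hd _ _ n3) hI'
  refine ⟨b, hb1, hb2, ?_, ?_⟩
  · intro hcase
    have hcase' : Nonempty (K →+* ℝ) ∨
        Ideal.absNorm (Ideal.span {v (i + 1)}) ≤ Ideal.absNorm (Ideal.span {v i}) ∨
        Ideal.absNorm (Ideal.span {v (i + 2)}) ≤ Ideal.absNorm (Ideal.span {v i}) := by
      rcases hcase with h1 | ⟨k, hk, hle⟩
      · exact Or.inl h1
      · right
        rcases hcases k with h1 | h1 | h1
        · left; rw [← h1]; exact hle
        · right; rw [← h1]; exact hle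
        · exact absurd h1 hk
    obtain ⟨c1, c2⟩ := hb3 hcase'
    refine ⟨c1, fun k => c2 _ ?_⟩
    rcases hcases k with h1 | h1 | h1 <;> rw [h1] <;> simp
  · intro hb hr
    obtain ⟨σ, hσ⟩ := conj_of_norm_eq hK hp (by omega) hr h (hne _) (hne _)
      (hb4 (by rw [hb, Ideal.one_eq_top]))
    intro k l hk hl hkl
    rcases hcases k with h1 | h1 | h1
    · rcases hcases l with h2 | h2 | h2
      · exact absurd (h1.trans h2.symm) hkl
      · exact ⟨σ, by rw [h1, h2]; exact hσ⟩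
      · exact absurd h2 hl
    · rcases hcases l with h2 | h2 | h2
      · exact ⟨σ.symm, by rw [h1, h2, ← hσ]; simp⟩
      · exact absurd (h1.trans h2.symm) hkl
      · exact absurd h2 hl
    · exact absurd h1 hk

/-- Let `K` be any quadratic number field, `p ≥ 11` a prime, `x, y, z` nonzero integers of `K` with
`x ^ p + y ^ p = z ^ p`, the solution being nontrivial (`x / z` and `y / z` are not both roots of
unity), `I = (x, y, z)` and `w = (x, y, z)` as a family indexed by `Fin 3`. Then there are integral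
ideals `b 0, b 1, b 2` with `b i * I ∣ (w i)` all of whose prime ideal factors have absolute norm
`≡ 1 (mod p)`, and an index `j`, such that for every `i ≠ j` (and, if `K` is real, also for
`i = j`) the ideal `b i` has norm at least `2 ^ (p - 4)`, so that `|N(w i)| ≥ 2 ^ (p - 4) N(I)`,
and moreover `|N(w k)| ^ (p - 1) ≤ 16 p ^ 2 N(b i) ^ p N(I) ^ (p - 1)` for all `k`. The remaining
ideal `b j` can be the unit ideal only if `K` is imaginary and the quotients of the other two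
members by `w j` are, up to sign, conjugate over `ℚ`. -/
theorem result (K : Type) [Field K] [NumberField K] (hK : Module.finrank ℚ K = 2) (p : ℕ)
    (hp : p.Prime) (hp11 : 11 ≤ p) (x y z : 𝓞 K) (h : x ^ p + y ^ p = z ^ p) (hxyz : x * y * z ≠ 0)
    (hnt : ¬ ∃ m : ℕ, 0 < m ∧ ((x : K) / (z : K)) ^ m = 1 ∧ ((y : K) / (z : K)) ^ m = 1)
    (w : Fin 3 → 𝓞 K) (hw : w = ![x, y, z]) (I : Ideal (𝓞 K)) (hI : I = Ideal.span {x, y, z}) :
    ∃ (b : Fin 3 → Ideal (𝓞 K)) (j : Fin 3),
      (∀ i, b i * I ∣ Ideal.span {w i}) ∧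
      (∀ i, ∀ q : Ideal (𝓞 K), q.IsPrime → q ∣ b i → Ideal.absNorm q ≡ 1 [MOD p]) ∧
      (∀ i, (i ≠ j ∨ Nonempty (K →+* ℝ)) →
        2 ^ (p - 4) ≤ Ideal.absNorm (b i) ∧
        2 ^ (p - 4) * Ideal.absNorm I ≤ (Algebra.norm ℤ (w i)).natAbs ∧
        ∀ k, (Algebra.norm ℤ (w k)).natAbs ^ (p - 1) ≤
          16 * p ^ 2 * Ideal.absNorm (b i) ^ p * Ideal.absNorm I ^ (p - 1)) ∧
      (b j = ⊤ → IsEmpty (K →+* ℝ) ∧ ∀ k l, k ≠ j → l ≠ j → k ≠ l →
        ∃ σ : K ≃ₐ[ℚ] K, σ ((w k : K) / (w j : K)) = (w l : K) / (w j : K) ∨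
          σ ((w k : K) / (w j : K)) = - ((w l : K) / (w j : K))) := by
  have hodd : Odd p := hp.odd_of_ne_two (by omega)
  have hz : z ≠ 0 := right_ne_zero_of_mul hxyz
  have hxy : x * y ≠ 0 := left_ne_zero_of_mul hxyz
  have hx : x ≠ 0 := left_ne_zero_of_mul hxy
  have hy : y ≠ 0 := right_ne_zero_of_mul hxy
  have coe : ∀ {a : 𝓞 K}, a ≠ 0 → (a : K) ≠ 0 := fun ha h0 => ha (RingOfIntegers.ext h0)
  have hK' : (x : K) ^ p + (y : K) ^ p = (z : K) ^ p := by
    have := congrArg (fun a : 𝓞 K => (a : K)) h; simpa using this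
  have hxyz' : (x : K) * (y : K) * (z : K) ≠ 0 :=
    mul_ne_zero (mul_ne_zero (coe hx) (coe hy)) (coe hz)
  have integ : ∀ a b : 𝓞 K, a ≠ 0 → a ∣ b → IsIntegral ℤ ((b : K) / (a : K)) := by
    rintro a b ha ⟨c, rfl⟩
    have : (((a * c : 𝓞 K) : K)) / (a : K) = (c : K) := by
      have ha' := coe ha
      push_cast
      field_simp
    rw [this]; exact c.isIntegral_coe
  have T1 := no_integral_ratio K hK p (by omega) (x : K) (y : K) (z : K) hK' hxyz'
  have dxy : ¬ x ∣ y := fun hd => hnt (T1 (Or.inr (Or.inl (integ x y hx hd))))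
  have dyx : ¬ y ∣ x := fun hd => hnt (T1 (Or.inl (integ y x hy hd)))
  have dzx : ¬ z ∣ x := fun hd => hnt (T1 (Or.inr (Or.inr (Or.inl (integ z x hz hd)))))
  have dxz : ¬ x ∣ z := fun hd => hnt (T1 (Or.inr (Or.inr (Or.inr (Or.inl (integ x z hx hd))))))
  have dzy : ¬ z ∣ y := fun hd =>
    hnt (T1 (Or.inr (Or.inr (Or.inr (Or.inr (Or.inl (integ z y hz hd)))))))
  have dyz : ¬ y ∣ z := fun hd =>
    hnt (T1 (Or.inr (Or.inr (Or.inr (Or.inr (Or.inr (integ y z hy hd)))))))
  -- the symmetric family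
  set v : Fin 3 → 𝓞 K := ![x, y, -z] with hv
  have v0 : v 0 = x := rfl
  have v1 : v 1 = y := rfl
  have v2 : v 2 = -z := rfl
  have w0 : w 0 = x := by rw [hw]; rfl
  have w1 : w 1 = y := by rw [hw]; rfl
  have w2 : w 2 = z := by rw [hw]; rfl
  have hvw : ∀ i, v i = w i ∨ v i = - w i := by
    intro i
    fin_cases i
    · left; show v 0 = w 0; rw [v0, w0]
    · left; show v 1 = w 1; rw [v1, w1]
    · right; show v 2 = - w 2; rw [v2, w2]
  have hspan : ∀ i, Ideal.span {v i} = Ideal.span {w i} := by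
    intro i
    rcases hvw i with h1 | h1
    · rw [h1]
    · rw [h1, Ideal.span_singleton_neg]
  have hnorm : ∀ i, Ideal.absNorm (Ideal.span {v i}) = (Algebra.norm ℤ (w i)).natAbs := by
    intro i; rw [hspan, Ideal.absNorm_span_singleton]
  have hIv : I = Ideal.span {v 0, v 1, v 2} := by
    rw [hI, v0, v1, v2]
    apply le_antisymm
    · rw [Ideal.span_le]
      intro a ha
      simp only [Set.mem_insert_iff, Set.mem_singleton_iff] at ha
      rcases ha with rfl | rfl | rfl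
      · exact Ideal.subset_span (by simp)
      · exact Ideal.subset_span (by simp)
      · exact Ideal.neg_mem_iff _ |>.mp (Ideal.subset_span (by simp))
    · rw [Ideal.span_le]
      intro a ha
      simp only [Set.mem_insert_iff, Set.mem_singleton_iff] at ha
      rcases ha with rfl | rfl | rfl
      · exact Ideal.subset_span (by simp)
      · exact Ideal.subset_span (by simp)
      · exact Ideal.neg_mem_iff _ |>.mpr (Ideal.subset_span (by simp))
  have hvs : v 0 ^ p + v 1 ^ p + v 2 ^ p = 0 := by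
    rw [v0, v1, v2, hodd.neg_pow, h]; ring
  have hvne : ∀ i, v i ≠ 0 := by
    intro i
    fin_cases i
    · exact hx
    · exact hy
    · exact neg_ne_zero.mpr hz
  have hvd : ∀ i k, i ≠ k → ¬ v i ∣ v k := by
    intro i k hik
    fin_cases i <;> fin_cases k
    · exact absurd rfl hik
    · exact dxy
    · show ¬ x ∣ -z
      rwa [dvd_neg]
    · exact dyx
    · exact absurd rfl hik
    · show ¬ y ∣ -z
      rwa [dvd_neg]
    · show ¬ -z ∣ x
      rwa [neg_dvd]
    · show ¬ -z ∣ y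
      rwa [neg_dvd]
    · exact absurd rfl hik
  have S := symm_form hK hp hp11 v hvs hvne hvd I hIv
  choose b hb1 hb2 hb3 hb4 using S
  obtain ⟨j, hj⟩ := Finite.exists_min (fun i => Ideal.absNorm (Ideal.span {v i}))
  have hcase : ∀ i, (i ≠ j ∨ Nonempty (K →+* ℝ)) → (Nonempty (K →+* ℝ) ∨ ∃ k, k ≠ i ∧
        Ideal.absNorm (Ideal.span {v k}) ≤ Ideal.absNorm (Ideal.span {v i})) := by
    rintro i (h1 | h1)
    · exact Or.inr ⟨j, fun h2 => h1 h2.symm, hj i⟩
    · exact Or.inl h1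
  refine ⟨b, j, ?_, ?_, ?_, ?_⟩
  · intro i; rw [← hspan]; exact hb1 i
  · intro i q hq hqb
    refine hb2 i q ?_ hqb
    refine Ideal.prime_of_isPrime ?_ hq
    intro h0
    rw [h0] at hqb
    have h1 : b i = ⊥ := by
      have := Ideal.le_of_dvd hqb
      exact le_bot_iff.mp this
    have h2 := hb1 i
    rw [h1] at h2
    have h3 : Ideal.span {v i} = ⊥ := by
      have h4 : (⊥ : Ideal (𝓞 K)) * I = ⊥ := by simp
      rw [h4] at h2
      exact le_bot_iff.mp (Ideal.le_of_dvd h2)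
    exact hvne i (by simpa using h3)
  · intro i hi
    obtain ⟨c1, c2⟩ := hb3 i (hcase i hi)
    refine ⟨c1, ?_, fun k => ?_⟩
    · rw [← hnorm]
      have h5 : Ideal.absNorm (b i * I) ≤ Ideal.absNorm (Ideal.span {v i}) := by
        apply Nat.le_of_dvd
        · rw [Nat.pos_iff_ne_zero, Ne, Ideal.absNorm_eq_zero_iff]
          simpa using hvne i
        · exact Ideal.absNorm_dvd_absNorm_of_le (Ideal.le_of_dvd (hb1 i))
      rw [map_mul] at h5
      exact (Nat.mul_le_mul_right _ c1).trans h5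
    · rw [← hnorm]; exact c2 k
  · intro hbj
    have hr : ¬ Nonempty (K →+* ℝ) := by
      intro hn
      have h5 := (hb3 j (Or.inl hn)).1
      rw [hbj, Ideal.absNorm_top] at h5
      have h6 : 2 ^ 7 ≤ 2 ^ (p - 4) := Nat.pow_le_pow_right (by norm_num) (by omega)
      omega
    refine ⟨not_nonempty_iff.mp hr, ?_⟩
    intro k l hk hl hkl
    obtain ⟨σ, hσ⟩ := hb4 j hbj hr k l hk hl hkl
    refine ⟨σ, ?_⟩
    rcases hvw j with h1 | h1 <;> rcases hvw k with h2 | h2 <;> rcases hvw l with h3 | h3 <;>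
      rw [h1, h2, h3] at hσ <;> push_cast at hσ <;>
      (try simp only [neg_div, div_neg, neg_neg, map_neg] at hσ)
    · left; exact hσ
    · right; exact hσ
    · right; rw [← hσ, neg_neg]
    · left; exact neg_injective hσ
    · left; exact neg_injective hσ
    · right; rw [← hσ, neg_neg]
    · right; exact hσ
    · left; exact hσ

end Pool.Agent.Results.MP_50a406_nt.PrimitiveDivisors
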