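import Pool.Agent.FLN.Coef

set_option autoImplicit false

open Filter Topology

namespace Pool.Agent.Results.MP_50a406_nt.RationalLines

open Pool.Agent.FLN

/-- Let `p ≥ 5` be a prime, `K` a quadratic field, and `(x, y, z)` a nontrivial solution of
`x ^ p + y ^ p = z ^ p` in `K` that is not proportional to a rational solution. The point
`(x : y : z)` lies on exactly one rational line `a X + b Y = c Z`, `gcd(a, b, c) = 1`. For this
line `a b c ≠ 0`; every prime `q` that is not congruent to `0, 1, -1` modulo `p` divides at most one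
of `a, b, c`, and its exponent in each of them is a multiple of `(p - 1) / 2`; either
`a ≡ b ≡ c (mod p)`, or `p ^ ((p - 3) / 2)` divides one of `a, b, c`; if `K` is real, then `a, b, c`
have the same sign; and the height `max (|a|, |b|, |c|)` is larger than `p / 2`, and at least
`2 p - 1` if `p ≥ 11`.
Consequently, for all primes `p ≥ 5` and all quadratic fields simultaneously, one hundred per cent
of the integers are not a coefficient of such a line, and one hundred per cent of the rational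
lines, ordered by height, contain no such point. -/
theorem result :
    (∀ (p : ℕ) (K : Type) [Field K] [NumberField K] (x y z : K), p.Prime → 5 ≤ p →
      IsQuadPoint p K x y z → ∃ a b c : ℤ, Int.gcd (Int.gcd a b) c = 1 ∧
        (a : K) * x + b * y = c * z ∧
        (∀ a' b' c' : ℤ, (a' : K) * x + b' * y = c' * z →
          ∃ t : ℤ, a' = t * a ∧ b' = t * b ∧ c' = t * c) ∧
        a ≠ 0 ∧ b ≠ 0 ∧ c ≠ 0 ∧
        (∀ q : ℕ, q.Prime → ¬ p ∣ q * (q ^ 2 - 1) → (p - 1) ∣ 2 * padicValInt q a ∧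
          (p - 1) ∣ 2 * padicValInt q b ∧ (p - 1) ∣ 2 * padicValInt q c ∧
          ((q : ℤ) ∣ a → ¬ (q : ℤ) ∣ b) ∧ ((q : ℤ) ∣ b → ¬ (q : ℤ) ∣ c) ∧
          ((q : ℤ) ∣ c → ¬ (q : ℤ) ∣ a)) ∧
        (((p : ℤ) ∣ a - b ∧ (p : ℤ) ∣ b - c) ∨ (p : ℤ) ^ ((p - 3) / 2) ∣ a ∨
          (p : ℤ) ^ ((p - 3) / 2) ∣ b ∨ (p : ℤ) ^ ((p - 3) / 2) ∣ c) ∧
        (Nonempty (K →+* ℝ) → 0 < a * b ∧ 0 < b * c) ∧
        (p : ℤ) < 2 * max |a| (max |b| |c|) ∧
        (11 ≤ p → 2 * (p : ℤ) - 1 ≤ max |a| (max |b| |c|))) ∧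
    Tendsto (fun H : ℕ => (Set.ncard {n : ℤ | |n| ≤ (H : ℤ) ∧ IsCoeff n} : ℝ) / (2 * H + 1))
      atTop (𝓝 0) ∧
    Tendsto (fun H : ℕ => (Set.ncard {l | l ∈ Lines H ∧ HasPoint l.1 l.2.1 l.2.2} : ℝ) /
      ((Lines H).ncard : ℝ)) atTop (𝓝 0) := by
  refine ⟨?_, coeff_density, lines tSTR tCOUNT⟩
  intro p K _ _ x y z hp h5 h
  obtain ⟨a, b, c, h1, h2, h3, h4, h6, h7, h8, h9, h10, h11⟩ := tSTR p K x y z hp h5 h
  exact ⟨a, b, c, h1, h2, h3, h4, h6, h7, h8, h9, h10, h11, fun hp11 =>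
    two_p hp hp11 h1 h4 h6 h7 (fun q hq hd => ⟨(h8 q hq hd).1, (h8 q hq hd).2.1,
      (h8 q hq hd).2.2.1⟩) h9 h11⟩

end Pool.Agent.Results.MP_50a406_nt.RationalLines
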