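import Pool.Agent.FCW.All

/-!
# Wieferich's criterion for the first case of Fermat's equation over all quadratic fields

Let `p ≥ 7` be a prime with `2^(p-1) ≢ 1 mod p²` and let `K = ℚ(√d)` be a quadratic field, `d`
squarefree.  If `X^p + Y^p = Z^p` has a solution in integers of `K` prime to `p`, then either
`d ≡ 5 mod 8`, `(d/p) = (-3/p)` and `X² + XY + Y² ≡ 0 mod p`, or `d ≡ 1 mod 8`,
`(d/p) = (-15/p)` and `p` divides the value at `(X, Y)` of one of three explicit forms.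
-/

open NumberField

namespace Pool.Agent.Results.MP_50a406_nt.WieferichCriterion

attribute [-instance] Pool.Agent.FCW.instNeZero

/-- Let `K` be a quadratic field containing a square root of the squarefree integer `d ≠ 1`, and
`p ≥ 7` a prime such that `p²` does not divide `2^(p-1) - 1`.  Let `x^(kp) + y^(kp) = z^(kp)`
with `x, y, z` in the ring of integers of `K`, all prime to `p`.  With `X = x^k` and `Y = y^k`:
either `d ≡ 5 mod 8`, `(d/p) = (-3/p)` and `X² + XY + Y² ≡ 0 mod p`, or `d ≡ 1 mod 8`,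
`(d/p) = (-15/p)` and one of `2X² + XY + 2Y²`, `2X² + 3XY + 3Y²`, `3X² + 3XY + 2Y²` is
`≡ 0 mod p`. -/
theorem result (K : Type) [Field K] [NumberField K] (hK : Module.finrank ℚ K = 2)
    (d : ℤ) (hd : Squarefree d) (hd1 : d ≠ 1) (s : K) (hs : s ^ 2 = (d : K))
    (p : ℕ) [Fact p.Prime] (h7 : 7 ≤ p) (hW : ¬ p ^ 2 ∣ 2 ^ (p - 1) - 1)
    (k : ℕ) (x y z : 𝓞 K) (hco : IsCoprime (x * y * z) (p : 𝓞 K))
    (h : x ^ (k * p) + y ^ (k * p) = z ^ (k * p)) :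
    (d % 8 = 5 ∧ legendreSym p d = legendreSym p (-3) ∧
      (p : 𝓞 K) ∣ (x ^ k) ^ 2 + x ^ k * y ^ k + (y ^ k) ^ 2) ∨
    (d % 8 = 1 ∧ legendreSym p d = legendreSym p (-15) ∧
      ((p : 𝓞 K) ∣ 2 * (x ^ k) ^ 2 + x ^ k * y ^ k + 2 * (y ^ k) ^ 2 ∨
        (p : 𝓞 K) ∣ 2 * (x ^ k) ^ 2 + 3 * x ^ k * y ^ k + 3 * (y ^ k) ^ 2 ∨
        (p : 𝓞 K) ∣ 3 * (x ^ k) ^ 2 + 3 * x ^ k * y ^ k + 2 * (y ^ k) ^ 2)) :=
  Pool.Agent.FCW.final_W K hK d hd hd1 s hs p h7 hW k x y z hco h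

end Pool.Agent.Results.MP_50a406_nt.WieferichCriterion
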